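import Mathlib

namespace Pool.Agent.Results.MP_455133_co.PairShadow

open Finset Filter

/-- `A` is a `t`-covering family of `s`-subsets of `Fin n`. -/
def Covering {n : ℕ} (s t : ℕ) (A : Finset (Finset (Fin n))) : Prop :=
  (∀ a ∈ A, a.card = s) ∧ ∀ T : Finset (Fin n), T.card = t → ∃ a ∈ A, a ⊆ T

/-- The lower `r`-shadow. -/
def shadow {n : ℕ} (r : ℕ) (A : Finset (Finset (Fin n))) : Finset (Finset (Fin n)) :=
  (powersetCard r univ).filter fun B => ∃ a ∈ A, B ⊆ a

lemma step (s t k : ℕ) (hs : 2 ≤ s) (hk : t ≤ (k + 1) * (s - 1)) (ε : ℝ) (hε : 0 < ε) :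
    ∃ m0 : ℕ, ∀ (n : ℕ) (A : Finset (Finset (Fin n))), Covering s t A → ∀ U : Finset (Fin n),
      m0 ≤ U.card → ∃ v ∈ U, (1 / k - ε) * U.card - 1 ≤
        (((U.erase v).filter fun w => {v, w} ∈ shadow 2 A).card : ℝ) := by
  obtain ⟨m0, hm⟩ := eventually_atTop.1
    (SimpleGraph.eventually_completeEquipartiteGraph_isContained_of_minDegree hε k (s - 1))
  refine ⟨m0 + 1, fun n A hA U hU => ?_⟩
  by_contra hc
  push Not at hc
  let f := U.orderEmbOfFin rfl
  have hf : ∀ i, f i ∈ U := fun i => U.orderEmbOfFin_mem rfl i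
  let H : SimpleGraph (Fin U.card) :=
    ⟨fun i j => i ≠ j ∧ ({f i, f j} : Finset (Fin n)) ∉ shadow 2 A,
      ⟨fun i j h => ⟨h.1.symm, by rw [pair_comm]; exact h.2⟩⟩, ⟨fun i h => h.1 rfl⟩⟩
  classical
  have : Nonempty (Fin U.card) := ⟨⟨0, by omega⟩⟩
  have hd : (H.minDegree : ℝ) ≥ (1 - 1 / k + ε) * U.card := by
    obtain ⟨i, hi⟩ := H.exists_minimal_degree_vertex
    have h1 := hc (f i) (hf i)
    have h2 : U.card ≤ H.degree i +
        ((U.erase (f i)).filter fun w => {f i, w} ∈ shadow 2 A).card + 1 := by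
      have : U ⊆ insert (f i) ((H.neighborFinset i).image f ∪
          (U.erase (f i)).filter fun w => {f i, w} ∈ shadow 2 A) := by
        intro w hw
        have hw' : w ∈ Set.range f := by rw [U.range_orderEmbOfFin rfl]; exact hw
        obtain ⟨j, rfl⟩ := hw'
        by_cases e : j = i
        · simp [e]
        · refine mem_insert_of_mem ?_
          by_cases h : ({f i, f j} : Finset (Fin n)) ∈ shadow 2 A
          · exact mem_union_right _ (mem_filter.2 ⟨mem_erase.2 ⟨fun h' => e (f.injective h'), hw⟩, h⟩)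
          · exact mem_union_left _ (mem_image_of_mem _
              ((H.mem_neighborFinset _ _).2 ⟨Ne.symm e, h⟩))
      refine (card_le_card this).trans ((card_insert_le _ _).trans ?_)
      have h3 := card_image_le (s := H.neighborFinset i) (f := f)
      have h4 := card_union_le ((H.neighborFinset i).image f)
        ((U.erase (f i)).filter fun w => {f i, w} ∈ shadow 2 A)
      rw [H.card_neighborFinset_eq_degree] at h3
      omega
    have h3 : (U.card : ℝ) ≤ H.degree i +
        ((U.erase (f i)).filter fun w => {f i, w} ∈ shadow 2 A).card + 1 := by exact_mod_cast h2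
    rw [hi]
    linarith
  obtain ⟨φ⟩ := hm U.card (by omega) (G := H) hd
  have hg : Function.Injective fun p => f (φ p) := f.injective.comp φ.injective
  obtain ⟨T, hT, hT2⟩ := exists_subset_card_eq (s := univ.image fun p => f (φ p)) (n := t)
    (by rw [card_image_of_injective _ hg]; simpa using hk)
  obtain ⟨a, ha, haT⟩ := hA.2 T hT2
  have ha2 := hA.1 a ha
  obtain ⟨x, hx⟩ : a.Nonempty := card_pos.1 (by omega)
  obtain ⟨p, -, rfl⟩ := mem_image.1 (hT (haT hx))
  have : a ⊆ univ.image fun j => f (φ (p.1, j)) := by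
    intro y hy
    obtain ⟨q, -, rfl⟩ := mem_image.1 (hT (haT hy))
    by_cases e : p.1 = q.1
    · exact mem_image.2 ⟨q.2, mem_univ _, by rw [e]⟩
    · have h1 : H.Adj (φ p) (φ q) := φ.toHom.map_adj e
      refine absurd (mem_filter.2 ⟨mem_powersetCard.2 ⟨subset_univ _, ?_⟩, a, ha, ?_⟩) h1.2
      · exact card_pair fun h => h1.1 (f.injective h)
      · exact insert_subset hx (singleton_subset_iff.2 hy)
  have h5 := (card_le_card this).trans card_image_le
  simp at h5
  omega

lemma sum_up {n : ℕ} (S : Finset (Finset (Fin n))) (m0 : ℕ) (c : ℝ) (hc : 0 ≤ c)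
    (h : ∀ U : Finset (Fin n), m0 ≤ U.card → ∃ v ∈ U, c * U.card - 1 ≤
      (((U.erase v).filter fun w => {v, w} ∈ S).card : ℝ)) (m : ℕ) :
    ∀ U : Finset (Fin n), U.card = m →
      c * (m ^ 2 - m0 ^ 2) / 2 - m ≤ ((S.filter fun B => B ⊆ U).card : ℝ) := by
  induction m with
  | zero => intro U _; simp only [Nat.cast_zero]; nlinarith [mul_nonneg hc (sq_nonneg (m0 : ℝ)),
      Nat.cast_nonneg (α := ℝ) (S.filter fun B => B ⊆ U).card]
  | succ m ih =>
    intro U hU
    rcases lt_or_ge U.card m0 with h0 | h0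
    · have h1 : ((m + 1 : ℕ) : ℝ) ≤ m0 := by exact_mod_cast (by omega : m + 1 ≤ m0)
      have h2 : ((m + 1 : ℕ) : ℝ) ^ 2 ≤ (m0 : ℝ) ^ 2 := by gcongr
      nlinarith [mul_nonneg hc (sub_nonneg.2 h2), Nat.cast_nonneg (α := ℝ) (m + 1),
        Nat.cast_nonneg (α := ℝ) (S.filter fun B => B ⊆ U).card]
    · obtain ⟨v, hv, h1⟩ := h U h0
      have h2 := ih (U.erase v) (by rw [card_erase_of_mem hv]; omega)
      have h3 : (S.filter fun B => B ⊆ U.erase v).card +
          ((U.erase v).filter fun w => {v, w} ∈ S).card ≤ (S.filter fun B => B ⊆ U).card := by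
        rw [← card_image_of_injOn (s := (U.erase v).filter fun w => {v, w} ∈ S)
          (f := fun w => ({v, w} : Finset (Fin n))), ← card_union_of_disjoint]
        · refine card_le_card (union_subset (fun B hB => ?_) fun B hB => ?_)
          · exact mem_filter.2 ⟨(mem_filter.1 hB).1, (mem_filter.1 hB).2.trans (erase_subset _ _)⟩
          · obtain ⟨w, hw, rfl⟩ := mem_image.1 hB
            exact mem_filter.2 ⟨(mem_filter.1 hw).2, insert_subset hv
              (singleton_subset_iff.2 (mem_of_mem_erase (mem_filter.1 hw).1))⟩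
        · refine disjoint_left.2 fun B h1 h2 => ?_
          obtain ⟨w, hw, rfl⟩ := mem_image.1 h2
          simpa using (mem_filter.1 h1).2 (mem_insert_self v _)
        · intro w hw z _ e
          have e1 : w ≠ v := (mem_erase.1 (mem_filter.1 (mem_coe.1 hw)).1).1
          have : w ∈ ({v, z} : Finset (Fin n)) := by
            simp only at e; rw [← e]; simp
          simpa [e1] using this
      have h4 : ((S.filter fun B => B ⊆ U.erase v).card : ℝ) +
          ((U.erase v).filter fun w => {v, w} ∈ S).card ≤ (S.filter fun B => B ⊆ U).card := by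
        exact_mod_cast h3
      rw [hU] at h1
      push_cast at h1 ⊢
      nlinarith

lemma upper (n s t k : ℕ) (hk0 : 0 < k) (hk : k * (s - 1) < t) :
    ∃ A : Finset (Finset (Fin n)), Covering s t A ∧
      (shadow 2 A).card ≤ k * (n / k + 1).choose 2 := by
  let b : ℕ → Finset (Fin n) := fun i => univ.filter fun x => x.1 % k = i
  have hb : ∀ i, (b i).card ≤ n / k + 1 := by
    intro i
    rw [← card_range (n / k + 1)]
    refine card_le_card_of_injOn (fun x => x.1 / k) (fun x _ => ?_) fun x hx y hy e => ?_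
    · exact mem_coe.2 (mem_range.2 (Nat.lt_succ_of_le (Nat.div_le_div_right x.2.le)))
    · have h1 := (mem_filter.1 (mem_coe.1 hx)).2
      have h2 := (mem_filter.1 (mem_coe.1 hy)).2
      apply Fin.ext
      rw [← Nat.div_add_mod x.1 k, ← Nat.div_add_mod y.1 k, h1, h2]
      simp only at e; rw [e]
  refine ⟨(range k).biUnion fun i => powersetCard s (b i), ⟨fun a ha => ?_, fun T hT => ?_⟩, ?_⟩
  · obtain ⟨i, -, h⟩ := mem_biUnion.1 ha
    exact (mem_powersetCard.1 h).2
  · obtain ⟨i, hi, h⟩ := exists_lt_card_fiber_of_mul_lt_card_of_maps_to (s := T) (t := range k)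
      (f := fun x => x.1 % k) (n := s - 1) (fun x _ => mem_range.2 (Nat.mod_lt _ hk0))
      (by rw [card_range, hT]; exact hk)
    obtain ⟨a, ha, ha2⟩ := exists_subset_card_eq (s := T.filter fun x => x.1 % k = i) (n := s)
      (by omega)
    exact ⟨a, mem_biUnion.2 ⟨i, hi, mem_powersetCard.2
      ⟨ha.trans (filter_subset_filter _ (subset_univ _)), ha2⟩⟩, ha.trans (filter_subset _ _)⟩
  · refine (card_le_card (t := (range k).biUnion fun i => powersetCard 2 (b i))
      fun B hB => ?_).trans (card_biUnion_le.trans ?_)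
    · obtain ⟨h1, a, ha, h2⟩ := mem_filter.1 hB
      obtain ⟨i, hi, h⟩ := mem_biUnion.1 ha
      exact mem_biUnion.2 ⟨i, hi, mem_powersetCard.2
        ⟨h2.trans (mem_powersetCard.1 h).1, (mem_powersetCard.1 h1).2⟩⟩
    · refine (sum_le_card_nsmul _ _ _ fun i _ => ?_).trans (by rw [card_range, smul_eq_mul])
      rw [card_powersetCard]
      exact Nat.choose_le_choose _ (hb i)

theorem result (s t : ℕ) (hs : 2 < s) (ht : s < t) (ε : ℝ) (hε : 0 < ε) :
    ∃ N : ℕ, ∀ n ≥ N,
      (∀ A : Finset (Finset (Fin n)), Covering s t A →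
        (1 / (2 * (((t - 1) / (s - 1) : ℕ) : ℝ)) - ε) * n ^ 2 ≤ (shadow 2 A).card) ∧
      ∃ A : Finset (Finset (Fin n)), Covering s t A ∧
        ((shadow 2 A).card : ℝ) ≤ (1 / (2 * (((t - 1) / (s - 1) : ℕ) : ℝ)) + ε) * n ^ 2 := by
  obtain ⟨k, hk⟩ : ∃ k, k = (t - 1) / (s - 1) := ⟨_, rfl⟩
  rw [← hk]
  have k0 : 0 < k := by rw [hk]; exact Nat.div_pos (by omega) (by omega)
  have k1 : k * (s - 1) < t := by
    have := Nat.div_mul_le_self (t - 1) (s - 1)
    rw [← hk] at this; omega
  have k2 : t ≤ (k + 1) * (s - 1) := by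
    have := Nat.lt_mul_div_succ (t - 1) (show 0 < s - 1 by omega)
    rw [← hk, mul_comm] at this; omega
  have k3 : (1 : ℝ) ≤ k := by exact_mod_cast k0
  obtain ⟨m0, hm⟩ := step s t k hs.le k2 ε hε
  obtain ⟨N, hN⟩ := exists_nat_ge ((m0 ^ 2 + 2 + k) / ε + 1)
  refine ⟨N, fun n hn => ?_⟩
  have n0 : (N : ℝ) ≤ n := by exact_mod_cast hn
  have n1 : (1 : ℝ) ≤ n := by
    have : (0 : ℝ) ≤ (m0 ^ 2 + 2 + k) / ε := by positivity
    linarith
  have n2 : (m0 : ℝ) ^ 2 + 2 + k ≤ n * ε := by
    rw [← div_le_iff₀ hε]; linarith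
  have e : 1 / (2 * (k : ℝ)) = 1 / k / 2 := by field_simp
  have i1 : 1 / (k : ℝ) ≤ 1 := by rw [div_le_one (by linarith)]; exact k3
  have i0 : 0 < 1 / (k : ℝ) := by positivity
  rw [e]
  constructor
  · intro A hA
    rcases le_or_gt (1 / (k : ℝ) - ε) 0 with h | h
    · exact le_trans (mul_nonpos_of_nonpos_of_nonneg (by linarith) (by positivity))
        (Nat.cast_nonneg _)
    · have := sum_up (shadow 2 A) m0 _ h.le (hm n A hA) n univ (by simp)
      rw [filter_true_of_mem fun _ _ => subset_univ _] at this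
      have a1 : (1 / (k : ℝ) - ε) * m0 ^ 2 ≤ n * m0 ^ 2 := by gcongr; linarith
      nlinarith [mul_le_mul_of_nonneg_left n2 (by linarith : (0 : ℝ) ≤ n)]
  · obtain ⟨A, hA, h⟩ := upper n s t k k0 k1
    refine ⟨A, hA, ?_⟩
    have a1 : ((shadow 2 A).card : ℝ) ≤ k * ((n / k + 1).choose 2 : ℕ) := by exact_mod_cast h
    have a2 : (((n / k : ℕ) : ℝ)) ≤ n / k := Nat.cast_div_le
    rw [Nat.cast_choose_two] at a1
    push_cast at a1
    have a3 : (k : ℝ) * ((((n / k : ℕ) : ℝ) + 1) * (((n / k : ℕ) : ℝ) + 1 - 1) / 2) ≤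
        k * (((n : ℝ) / k + 1) * (n / k) / 2) := by
      rw [add_sub_cancel_right]; gcongr
    have a4 : (k : ℝ) * (((n : ℝ) / k + 1) * (n / k) / 2) = 1 / k / 2 * n ^ 2 + n / 2 := by
      field_simp
    nlinarith [mul_le_mul_of_nonneg_left n2 (by linarith : (0 : ℝ) ≤ n), sq_nonneg (m0 : ℝ),
      mul_nonneg (by linarith : (0 : ℝ) ≤ n) (sq_nonneg (m0 : ℝ))]

end Pool.Agent.Results.MP_455133_co.PairShadow
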